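import Mathlib
import Pool.Agent.R369.Bas.Glob4

/-!
The proportion of automorphisms with a fixed root in the Galois group over the rationals of
`f^m(x) - 1`, where `f = x^2 - 1`, tends to zero.
-/

namespace Pool.Agent.Results.MP_0936a9_nt.FixedPointsVanish

open Polynomial Filter

/-- The iterates of `x^2 - 1`: `iter 0 = x` and `iter (m + 1)` is `iter m` evaluated at
`x^2 - 1`. -/
noncomputable def iter : ℕ → ℚ[X]
  | 0 => X
  | m + 1 => (iter m).comp (X ^ 2 - 1)

/-- The polynomial `f^m(x) - 1`. -/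
noncomputable def P (m : ℕ) : ℚ[X] := iter m - 1

/-- The proportion of elements of the Galois group of `f^m(x) - 1` over the rationals fixing at
least one root of `f^m(x) - 1` (in its splitting field). -/
noncomputable def delta (m : ℕ) : ℝ :=
  (Nat.card {σ : (P m).Gal // ∃ x : (P m).SplittingField, aeval x (P m) = 0 ∧ σ x = x} : ℝ) /
    (Nat.card (P m).Gal : ℝ)

theorem iter_eq (m : ℕ) : iter m = Pool.Agent.R369.Bas.fP ℚ m := by
  have h : ∀ m, (Pool.Agent.R369.Bas.fP ℚ m).comp (X ^ 2 - 1) =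
      Pool.Agent.R369.Bas.fP ℚ (m + 1) := by
    intro m
    induction m with
    | zero => simp [Pool.Agent.R369.Bas.fP_zero, Pool.Agent.R369.Bas.fP_succ]
    | succ m ih =>
      rw [Pool.Agent.R369.Bas.fP_succ ℚ (m + 1), Pool.Agent.R369.Bas.fP_succ ℚ m, sub_comp,
        pow_comp, ih, one_comp, ← Pool.Agent.R369.Bas.fP_succ ℚ m]
  induction m with
  | zero => rfl
  | succ m ih =>
    change (iter m).comp (X ^ 2 - 1) = _
    rw [ih, h]

theorem P_eq (m : ℕ) : P m = Pool.Agent.R369.Bas.gP ℚ m := by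
  unfold P Pool.Agent.R369.Bas.gP
  rw [iter_eq]

theorem aeval_P (m : ℕ) {S : Type*} [CommRing S] [Algebra ℚ S] (x : S) :
    aeval x (P m) = Pool.Agent.R369.Bas.fI m x - 1 := by
  rw [P_eq, Pool.Agent.R369.Bas.aeval_gP]

theorem split_of_eq (p q : ℚ[X]) (h : q = p) : IsSplittingField ℚ p.SplittingField q := by
  subst h
  exact IsSplittingField.splittingField q

theorem delta_nonneg (m : ℕ) : 0 ≤ delta m := by
  unfold delta
  positivity

theorem delta_le (m : ℕ) (hm : 1 ≤ m) (R : ℕ) (hR : 1 ≤ R) :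
    delta m ≤ 1 / R + ((1 + (R : ℝ)) ^ 2 * (1 + 2 * R)) / m := by
  classical
  have hsp : IsSplittingField ℚ (P m).SplittingField (Pool.Agent.R369.Bas.gP ℚ m) :=
    split_of_eq _ _ (P_eq m).symm
  have hfin := Pool.Agent.R369.Bas.K_fin m (K := (P m).SplittingField)
  let _ : Fintype ((P m).SplittingField ≃ₐ[ℚ] (P m).SplittingField) := Fintype.ofFinite _
  have hb := Pool.Agent.R369.Bas.final_bound m (K := (P m).SplittingField) hm R hR
  have hcard : Nat.card (P m).Gal =
      Fintype.card ((P m).SplittingField ≃ₐ[ℚ] (P m).SplittingField) := by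
    rw [← Nat.card_eq_fintype_card]
    rfl
  have hnum : Nat.card {σ : (P m).Gal // ∃ x : (P m).SplittingField, aeval x (P m) = 0 ∧ σ x = x}
      = ((Finset.univ : Finset ((P m).SplittingField ≃ₐ[ℚ] (P m).SplittingField)).filter
          fun σ => (Pool.Agent.R369.Bas.Fx m σ).Nonempty).card := by
    rw [← Fintype.card_coe, ← Nat.card_eq_fintype_card]
    apply Nat.card_congr
    refine Equiv.subtypeEquiv (Equiv.refl _) ?_
    intro σ
    rw [Finset.mem_filter]
    constructor
    · rintro ⟨x, hx, hσ⟩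
      refine ⟨Finset.mem_univ _, x, ?_⟩
      rw [Pool.Agent.R369.Bas.mem_Fx]
      refine ⟨?_, hσ⟩
      rw [aeval_P, sub_eq_zero] at hx
      exact hx
    · rintro ⟨_, x, hx⟩
      rw [Pool.Agent.R369.Bas.mem_Fx] at hx
      refine ⟨x, ?_, hx.2⟩
      rw [aeval_P, sub_eq_zero]
      exact hx.1
  have hpos : (0 : ℝ) < Fintype.card ((P m).SplittingField ≃ₐ[ℚ] (P m).SplittingField) := by
    exact_mod_cast Fintype.card_pos
  unfold delta
  rw [hcard, hnum, div_le_iff₀ hpos, mul_comm]
  exact hb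

/-- The fixed-point proportions tend to zero. -/
theorem result : Tendsto delta atTop (nhds 0) := by
  rw [Metric.tendsto_atTop]
  intro ε hε
  obtain ⟨R, hR⟩ := exists_nat_gt (2 / ε)
  have hR0 : (0 : ℝ) < R := lt_trans (by positivity) hR
  have hR1 : 1 ≤ R := by
    have : (0 : ℝ) < R := hR0
    exact_mod_cast this
  set D : ℝ := (1 + (R : ℝ)) ^ 2 * (1 + 2 * R) with hD
  have hDpos : 0 < D := by positivity
  obtain ⟨N, hN⟩ := exists_nat_gt (2 * D / ε)
  refine ⟨N, fun m hm => ?_⟩
  have hN0 : (0 : ℝ) < N := lt_trans (by positivity) hN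
  have hm' : (N : ℝ) ≤ m := by exact_mod_cast hm
  have hm0 : (0 : ℝ) < m := lt_of_lt_of_le hN0 hm'
  have hm1 : 1 ≤ m := by exact_mod_cast hm0
  have h1 := delta_le m hm1 R hR1
  rw [Real.dist_eq, sub_zero, abs_of_nonneg (delta_nonneg m)]
  have h2 : 1 / (R : ℝ) < ε / 2 := by
    rw [div_lt_iff₀ hε] at hR
    rw [div_lt_iff₀ hR0]
    linarith
  have h3 : D / m < ε / 2 := by
    rw [div_lt_iff₀ hε] at hN
    rw [div_lt_iff₀ hm0]
    have : (N : ℝ) * ε ≤ m * ε := mul_le_mul_of_nonneg_right hm' hε.le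
    linarith
  linarith

end Pool.Agent.Results.MP_0936a9_nt.FixedPointsVanish
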